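import Pool.Agent.N801.CF.Main1

/-!
# Numbers `j ^ 2 + j + 1` and quadratic residue symbols
-/

set_option autoImplicit false

namespace Pool.Agent.K9h95.RT

open Pool.Agent.N801.CF

/-- a number whose prime factors have the symbol `1` -/
theorem jac_nat {s : ℕ} (A : ℕ) (hA : A ≠ 0)
    (h : ∀ q : ℕ, q.Prime → q ∣ A → jacobiSym (q : ℤ) s = 1) : jacobiSym (A : ℤ) s = 1 := by
  induction A using Nat.recOnMul with
  | zero => exact absurd rfl hA
  | one => simp
  | prime p hp => exact h p hp dvd_rfl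
  | mul a b iha ihb =>
    have ha : a ≠ 0 := fun h0 => hA (by rw [h0, zero_mul])
    have hb : b ≠ 0 := fun h0 => hA (by rw [h0, mul_zero])
    push_cast
    rw [jacobiSym.mul_left, iha ha fun q hq hd => h q hq (hd.mul_right _),
      ihb hb fun q hq hd => h q hq (hd.mul_left _), one_mul]

theorem jac_int {s : ℕ} (hs : s % 4 = 1) (A : ℤ) (hA : A ≠ 0)
    (h : ∀ q : ℕ, q.Prime → (q : ℤ) ∣ A → jacobiSym (q : ℤ) s = 1) : jacobiSym A s = 1 := by
  have h1 := jac_nat (s := s) A.natAbs (Int.natAbs_ne_zero.2 hA) fun q hq hd =>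
    h q hq (Int.natCast_dvd.2 hd)
  rcases Int.natAbs_eq A with h2 | h2
  · rw [h2]
    exact h1
  · rw [h2, jacobiSym.neg _ (Nat.odd_iff.2 (by omega)), h1, ZMod.χ₄_nat_one_mod_four hs, one_mul]

/-- the prime factors of `s z ^ 2 - 1` -/
theorem jac_prime {s q : ℕ} (hs : s % 4 = 1) (hq : q.Prime) (hq2 : q ≠ 2) {z : ℤ}
    (h : (q : ℤ) ∣ s * z ^ 2 - 1) : jacobiSym (q : ℤ) s = 1 := by
  have : Fact q.Prime := ⟨hq⟩
  have hodd : Odd q := hq.odd_of_ne_two hq2
  have e1 : jacobiSym ((s : ℤ) * z ^ 2) q = 1 := by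
    rw [jacobiSym.mod_left' (a₂ := 1)
      ((Int.emod_eq_emod_iff_emod_sub_eq_zero).2 (Int.emod_eq_zero_of_dvd h))]
    exact jacobiSym.one_left q
  have hz : z.gcd q = 1 := by
    obtain ⟨u, hu⟩ := h
    refine Int.isCoprime_iff_gcd_eq_one.1 ⟨s * z, -u, ?_⟩
    linear_combination hu
  rw [jacobiSym.mul_left, jacobiSym.sq_one' hz, mul_one] at e1
  rw [← e1]
  exact (jacobiSym.quadratic_reciprocity_one_mod_four hs hodd).symm

theorem jac_three {s : ℕ} (hs : s % 12 = 1) : jacobiSym (3 : ℤ) s = 1 := by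
  have h1 := jacobiSym.quadratic_reciprocity_one_mod_four (a := s) (b := 3) (by omega) (by decide)
  have h2 : jacobiSym (s : ℤ) 3 = 1 := by
    rw [jacobiSym.mod_left' (a₂ := 1) (by push_cast; omega)]
    exact jacobiSym.one_left 3
  rw [h2] at h1
  exact_mod_cast h1.symm

/-- **The second family**: the numbers `s² x² + 3 s y²` are not of the form `n² + n + 1` -/
theorem no_valueB {s : ℕ} (hs : s % 12 = 1)
    (hres : ∀ t : ℤ, (s : ℤ) ∣ t ^ 2 + 3 → jacobiSym t s = -1)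
    (x y n : ℤ) : s ^ 2 * x ^ 2 + 3 * s * y ^ 2 ≠ n ^ 2 + n + 1 := by
  intro h
  have hAB : (2 * n + 1 - 2 * s * x) * (2 * n + 1 + 2 * s * x) =
      3 * (s * (2 * y) ^ 2 - 1) := by
    linear_combination (-4) * h
  have hodd : ¬ (2 : ℤ) ∣ s * (2 * y) ^ 2 - 1 := by
    rintro ⟨u, hu⟩
    have : 2 * (2 * (s * y ^ 2) - u) = 1 := by linear_combination hu
    omega
  have hA0 : (2 * n + 1 - 2 * s * x) ≠ 0 := by
    intro h0
    rw [h0, zero_mul] at hAB
    exact hodd ⟨0, by linarith⟩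
  have hmod : (s : ℤ) ∣ (2 * n + 1 - 2 * s * x) ^ 2 + 3 := by
    refine ⟨-4 * x * (2 * n + 1 - 2 * s * x) + 3 * (2 * y) ^ 2, ?_⟩
    linear_combination hAB
  have h1 := hres _ hmod
  have h2 := jac_int (s := s) (by omega) _ hA0 fun q hq hqA => by
    have h3 : (q : ℤ) ∣ 3 * (s * (2 * y) ^ 2 - 1) := by
      rw [← hAB]
      exact hqA.mul_right _
    rcases (Nat.prime_iff_prime_int.1 hq).dvd_or_dvd h3 with h4 | h4
    · have h5 : q ∣ 3 := by exact_mod_cast h4
      rw [(Nat.prime_dvd_prime_iff_eq hq Nat.prime_three).1 h5]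
      exact_mod_cast jac_three hs
    · refine jac_prime (by omega) hq (fun hq2 => hodd ?_) h4
      rw [hq2] at h4
      exact_mod_cast h4
  rw [h1] at h2
  norm_num at h2

/-- a prime modulo which `s` is not a square, and the numbers `w² - s z²` -/
theorem inert_dvd {s q : ℕ} (hq : q.Prime) (hq1 : jacobiSym (s : ℤ) q = -1) {w z : ℤ}
    (h : (q : ℤ) ∣ w ^ 2 - s * z ^ 2) : (q : ℤ) ∣ w ∧ (q : ℤ) ∣ z := by
  have : Fact q.Prime := ⟨hq⟩
  have hpp := Nat.prime_iff_prime_int.1 hq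
  have hz : (q : ℤ) ∣ z := by
    by_contra hz
    have hw : ¬ (q : ℤ) ∣ w := by
      intro hw
      have h1 : (q : ℤ) ∣ s * z ^ 2 := by
        have := dvd_sub (hw.mul_left w) h
        have e : w * w - (w ^ 2 - s * z ^ 2) = s * z ^ 2 := by ring
        rwa [e] at this
      rcases hpp.dvd_or_dvd h1 with h2 | h2
      · have h3 : jacobiSym (s : ℤ) q = 0 := by
          rw [jacobiSym.mod_left' (a₂ := 0) (by
            rw [Int.emod_eq_zero_of_dvd h2, Int.zero_emod])]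
          exact jacobiSym.zero_left hq.one_lt
        rw [h3] at hq1
        norm_num at hq1
      · exact hz (hpp.dvd_of_dvd_pow h2)
    have gz : z.gcd q = 1 := Int.isCoprime_iff_gcd_eq_one.1
      ((Prime.coprime_iff_not_dvd hpp).2 hz).symm
    have gw : w.gcd q = 1 := Int.isCoprime_iff_gcd_eq_one.1
      ((Prime.coprime_iff_not_dvd hpp).2 hw).symm
    have e1 : jacobiSym (w ^ 2) q = jacobiSym ((s : ℤ) * z ^ 2) q :=
      jacobiSym.mod_left' ((Int.emod_eq_emod_iff_emod_sub_eq_zero).2 (Int.emod_eq_zero_of_dvd h))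
    rw [jacobiSym.mul_left, jacobiSym.sq_one' gz, jacobiSym.sq_one' gw, hq1] at e1
    norm_num at e1
  refine ⟨?_, hz⟩
  have h1 : (q : ℤ) ∣ w ^ 2 := by
    have := dvd_add h ((hz.mul_left z).mul_left (s : ℤ))
    have e : w ^ 2 - s * z ^ 2 + s * (z * z) = w ^ 2 := by ring
    rwa [e] at this
  exact hpp.dvd_of_dvd_pow h1

theorem inert_even {s q : ℕ} (hq : q.Prime) (hq1 : jacobiSym (s : ℤ) q = -1) (j : ℕ) :
    ∀ w z : ℤ, (q : ℤ) ^ (2 * j + 1) ∣ w ^ 2 - s * z ^ 2 →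
      (q : ℤ) ^ (2 * j + 2) ∣ w ^ 2 - s * z ^ 2 := by
  induction j with
  | zero =>
    intro w z h
    obtain ⟨⟨w', rfl⟩, z', rfl⟩ := inert_dvd hq hq1 (by simpa using h)
    exact ⟨w' ^ 2 - s * z' ^ 2, by ring⟩
  | succ j ih =>
    intro w z h
    obtain ⟨⟨w', rfl⟩, z', rfl⟩ := inert_dvd hq hq1 ((dvd_pow_self _ (by omega)).trans h)
    have hq0 : (q : ℤ) ^ 2 ≠ 0 := pow_ne_zero _ (by exact_mod_cast hq.ne_zero)
    have e : ((q : ℤ) * w') ^ 2 - s * (q * z') ^ 2 = q ^ 2 * (w' ^ 2 - s * z' ^ 2) := by ring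
    rw [e] at h ⊢
    have e1 : (q : ℤ) ^ (2 * (j + 1) + 1) = q ^ 2 * q ^ (2 * j + 1) := by ring
    have e2 : (q : ℤ) ^ (2 * (j + 1) + 2) = q ^ 2 * q ^ (2 * j + 2) := by ring
    rw [e1] at h
    rw [e2]
    exact mul_dvd_mul_left _ (ih w' z' ((mul_dvd_mul_iff_left hq0).1 h))

/-- a number in which the primes with symbol `-1` have even exponents -/
theorem jac_even {s : ℕ} (n : ℕ) (hn : n ≠ 0)
    (h0 : ∀ q : ℕ, q.Prime → q ∣ n → jacobiSym (s : ℤ) q ≠ 0)
    (h : ∀ q : ℕ, q.Prime → jacobiSym (s : ℤ) q = -1 → ∀ j, q ^ (2 * j + 1) ∣ n →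
      q ^ (2 * j + 2) ∣ n) : jacobiSym (s : ℤ) n = 1 := by
  induction n using Nat.recOnPosPrimePosCoprime with
  | prime_pow p k hp hk =>
    rw [jacobiSym.pow_right]
    rcases jacobiSym.trichotomy (s : ℤ) p with h1 | h1 | h1
    · exact absurd h1 (h0 p hp (dvd_pow_self p hk.ne'))
    · rw [h1, one_pow]
    · rcases Nat.even_or_odd' k with ⟨j, rfl | rfl⟩
      · rw [h1, pow_mul]
        norm_num
      · exfalso
        have h2 := h p hp h1 j dvd_rfl
        have h3 := (Nat.pow_dvd_pow_iff_le_right hp.one_lt).1 h2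
        omega
  | zero => exact absurd rfl hn
  | one => exact jacobiSym.one_right _
  | coprime a b ha hb hab iha ihb =>
    rw [jacobiSym.mul_right' _ (by omega) (by omega), iha (by omega)
      (fun q hq hd => h0 q hq (hd.mul_right _)) ?_, ihb (by omega)
      (fun q hq hd => h0 q hq (hd.mul_left _)) ?_, one_mul]
    · intro q hq h1 j hd
      have h2 := h q hq h1 j (hd.mul_left _)
      have hqb : q ∣ b := (dvd_pow_self q (by omega)).trans hd
      exact (Nat.Coprime.pow_left _ (Nat.Coprime.coprime_dvd_left hqb hab.symm)).dvd_of_dvd_mul_left h2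
    · intro q hq h1 j hd
      have h2 := h q hq h1 j (hd.mul_right _)
      have hqa : q ∣ a := (dvd_pow_self q (by omega)).trans hd
      exact (Nat.Coprime.pow_left _ (Nat.Coprime.coprime_dvd_left hqa hab)).dvd_of_dvd_mul_right h2

/-- the prime factors of a number modulo which `-3` is a square -/
theorem prime_mod {s : ℕ} (hs2 : s % 2 = 1) {t : ℤ} (ht : (s : ℤ) ∣ t ^ 2 + 3) {p : ℕ}
    (hp : p.Prime) (hps : p ∣ s) : p = 3 ∨ p % 3 = 1 := by
  by_contra hcon
  push Not at hcon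
  obtain ⟨h3, h1⟩ := hcon
  have h0 : p % 3 ≠ 0 := fun h =>
    h3 ((Nat.prime_dvd_prime_iff_eq Nat.prime_three hp).1 (Nat.dvd_of_mod_eq_zero h)).symm
  have h7 : (p : ℤ) ∣ nm (t - 1) 2 := by
    have : nm (t - 1) 2 = t ^ 2 + 3 := by unfold nm; ring
    rw [this]
    exact (Int.natCast_dvd_natCast.2 hps).trans ht
  have h8 := (inert hp (by omega) h7).2
  have h9 : p ∣ 2 := by exact_mod_cast h8
  rw [(Nat.prime_dvd_prime_iff_eq hp Nat.prime_two).1 h9] at hps
  omega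

theorem mod_three {s : ℕ} (hs2 : s % 2 = 1) {t : ℤ} (ht : (s : ℤ) ∣ t ^ 2 + 3)
    (h3 : ¬ 3 ∣ s) : s % 3 = 1 :=
  mod_three_of_primes (by omega) fun p hp hps => (prime_mod hs2 ht hp hps).resolve_left
    fun h => h3 (h ▸ hps)

/-- the symbol of a divisor of `w² - s z²` -/
theorem jac_div {s : ℕ} (hs2 : s % 2 = 1) {t : ℤ} (ht : (s : ℤ) ∣ t ^ 2 + 3) {u : ℕ}
    (hu : u % 2 = 1) {v w z : ℤ} (h : 3 * ((u : ℤ) * v) = w ^ 2 - s * z ^ 2)
    (hsu : ∀ q : ℕ, q.Prime → (q : ℤ) ∣ u → (q : ℤ) ∣ s → q = 2)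
    (huv : ∀ q : ℕ, q.Prime → (q : ℤ) ∣ u → (q : ℤ) ∣ v → q = 2) : jacobiSym (s : ℤ) u = 1 := by
  have hJ3 : jacobiSym (s : ℤ) 3 ≠ -1 := by
    by_cases h3 : 3 ∣ s
    · have e : jacobiSym (s : ℤ) 3 = 0 := by
        rw [jacobiSym.mod_left' (a₂ := 0) (by push_cast; omega)]
        exact jacobiSym.zero_left (by norm_num)
      rw [e]
      norm_num
    · have h1 := mod_three hs2 ht h3
      have e : jacobiSym (s : ℤ) 3 = 1 := by
        rw [jacobiSym.mod_left' (a₂ := 1) (by push_cast; omega)]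
        exact jacobiSym.one_left 3
      rw [e]
      norm_num
  have hq2 : ∀ q : ℕ, (q : ℤ) ∣ u → q ≠ 2 := by
    rintro q hqu rfl
    push_cast at hqu
    omega
  refine jac_even u (by omega) (fun q hq hqu => ?_) fun q hq hq1 j hd => ?_
  · have : NeZero q := ⟨hq.ne_zero⟩
    have hpp := Nat.prime_iff_prime_int.1 hq
    have h2 : (q : ℤ) ∣ u := Int.natCast_dvd_natCast.2 hqu
    rw [Ne, jacobiSym.eq_zero_iff_not_coprime, not_not]
    exact Int.isCoprime_iff_gcd_eq_one.1 ((Prime.coprime_iff_not_dvd hpp).2 fun hqs =>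
      hq2 q h2 (hsu q hq h2 hqs)).symm
  · have hpp := Nat.prime_iff_prime_int.1 hq
    have hqu : (q : ℤ) ∣ u := Int.natCast_dvd_natCast.2 ((dvd_pow_self q (by omega)).trans hd)
    have hdz : (q : ℤ) ^ (2 * j + 1) ∣ u := by exact_mod_cast hd
    have h2 := inert_even hq hq1 j w z (by
      rw [← h]
      exact (hdz.mul_right _).mul_left _)
    rw [← h] at h2
    have hq3 : ¬ (q : ℤ) ∣ 3 := by
      intro h3
      have h4 : q ∣ 3 := by exact_mod_cast h3
      rw [(Nat.prime_dvd_prime_iff_eq hq Nat.prime_three).1 h4] at hq1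
      exact hJ3 hq1
    have hqv : ¬ (q : ℤ) ∣ v := fun h3 => hq2 q hqu (huv q hq hqu h3)
    have h3 := hpp.pow_dvd_of_dvd_mul_left _ hq3 h2
    have h4 := hpp.pow_dvd_of_dvd_mul_right _ hqv h3
    exact_mod_cast h4

theorem odd_succ (n : ℤ) : ∃ d, n * (n + 1) = 2 * d := by
  obtain ⟨d, hd⟩ := (Int.even_mul_succ_self n).two_dvd
  exact ⟨d, hd⟩

theorem eq_two_of_dvd {q : ℕ} (hq : q.Prime) {z : ℤ} (h : (q : ℤ) ∣ z) (hz : z = 2 ∨ z = 4) :
    q = 2 := by
  have h1 : (q : ℤ) ∣ 2 ^ 2 := by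
    rcases hz with rfl | rfl
    · exact h.trans (by norm_num)
    · norm_num
      exact h
  have h2 := (Nat.prime_iff_prime_int.1 hq).dvd_of_dvd_pow h1
  exact (Nat.prime_dvd_prime_iff_eq hq Nat.prime_two).1 (by exact_mod_cast h2)

/-- **The first family**: the numbers `4 s x² + 3 s² y²` are not of the form `n² + n + 1` -/
theorem no_valueA {s : ℕ} (hs : s % 4 = 3) (ht : ∃ t : ℤ, (s : ℤ) ∣ t ^ 2 + 3)
    (x y n : ℤ) : 4 * s * x ^ 2 + 3 * s ^ 2 * y ^ 2 ≠ n ^ 2 + n + 1 := by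
  intro h
  obtain ⟨t, ht⟩ := ht
  set Y := y.natAbs with hY
  have hYy : (Y : ℤ) ^ 2 = y ^ 2 := by rw [hY, Int.natCast_natAbs, sq_abs]
  have hYodd : Y % 2 = 1 := by
    by_contra hcon
    obtain ⟨c, hc⟩ : ∃ c : ℤ, y = 2 * c := ⟨y / 2, by omega⟩
    obtain ⟨d, hd⟩ := odd_succ n
    have : 2 * (2 * s * x ^ 2 + 6 * s ^ 2 * c ^ 2 - d) = 1 := by
      rw [hc] at h
      linear_combination h + hd
    omega
  set u : ℕ := 2 * (s * Y) + 1 with hu
  have huz : (u : ℤ) = 2 * s * Y + 1 := by rw [hu]; push_cast; ring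
  have huv : 3 * ((u : ℤ) * (2 * s * Y - 1)) = (2 * n + 1) ^ 2 - s * (4 * x) ^ 2 := by
    rw [huz]
    linear_combination 12 * (s : ℤ) ^ 2 * hYy + 4 * h
  have h1 : jacobiSym (s : ℤ) u = 1 := by
    refine jac_div (by omega) ht (by omega) huv (fun q hq hqu hqs => ?_) fun q hq hqu hqv => ?_
    · exfalso
      apply (Nat.prime_iff_prime_int.1 hq).not_isUnit
      refine isUnit_of_dvd_one ?_
      have e : (1 : ℤ) = u - s * (2 * Y) := by rw [huz]; ring
      rw [e]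
      exact dvd_sub hqu (hqs.mul_right _)
    · exact eq_two_of_dvd hq (dvd_sub hqu hqv) (Or.inl (by rw [huz]; ring))
  have h2 : jacobiSym (s : ℤ) u = -1 := by
    have hu4 : u % 4 = 3 := by
      obtain ⟨c, hc⟩ : ∃ c, Y = 2 * c + 1 := ⟨Y / 2, by omega⟩
      obtain ⟨d, hd⟩ : ∃ d, s = 4 * d + 3 := ⟨s / 4, by omega⟩
      have : u = 4 * (4 * d * c + 2 * d + 3 * c + 1) + 3 := by
        rw [hu, hc, hd]
        ring
      omega
    rw [jacobiSym.quadratic_reciprocity_three_mod_four hs hu4,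
      jacobiSym.mod_left' (a₁ := (u : ℤ)) (a₂ := 1)
        ((Int.emod_eq_emod_iff_emod_sub_eq_zero).2 (Int.emod_eq_zero_of_dvd
          ⟨2 * Y, by rw [huz]; ring⟩)), jacobiSym.one_left]
  rw [h1] at h2
  norm_num at h2

/-- **The third family**: the numbers `s (4 x² + b x y + c y²)`, `16 c = b² + 3 s`, are not of the
form `n² + n + 1` -/
theorem no_valueC {s : ℕ} (hs : s % 8 = 5) (ht : ∃ t : ℤ, (s : ℤ) ∣ t ^ 2 + 3) {b c : ℤ}
    (hbc : 16 * c = b ^ 2 + 3 * s) (x y n : ℤ) :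
    s * (4 * x ^ 2 + b * x * y + c * y ^ 2) ≠ n ^ 2 + n + 1 := by
  intro h
  obtain ⟨t, ht⟩ := ht
  -- the sign of `y`
  obtain ⟨x', Y, h'⟩ : ∃ (x' : ℤ) (Y : ℕ),
      s * (4 * x' ^ 2 + b * x' * Y + c * (Y : ℤ) ^ 2) = n ^ 2 + n + 1 := by
    rcases Int.natAbs_eq y with hy | hy
    · exact ⟨x, y.natAbs, by rw [← hy]; exact h⟩
    · refine ⟨-x, y.natAbs, ?_⟩
      have e : ((y.natAbs : ℕ) : ℤ) = -y := by omega
      rw [e, ← h]
      ring
  have hYodd : Y % 2 = 1 := by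
    by_contra hcon
    obtain ⟨e, he⟩ : ∃ e : ℤ, (Y : ℤ) = 2 * e := ⟨Y / 2, by omega⟩
    obtain ⟨d, hd⟩ := odd_succ n
    have : 2 * (s * (2 * x' ^ 2 + b * x' * e + 2 * c * e ^ 2) - d) = 1 := by
      rw [he] at h'
      linear_combination h' + hd
    omega
  set u : ℕ := s * Y + 2 with hu
  have huz : (u : ℤ) = s * Y + 2 := by rw [hu]; push_cast; ring
  have hu2 : u % 2 = 1 := by
    rw [hu, Nat.add_mod, Nat.mul_mod, hYodd]
    have : s % 2 = 1 := by omega
    rw [this]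
  have huv : 3 * ((u : ℤ) * (s * Y - 2)) =
      (2 * (2 * n + 1)) ^ 2 - s * (8 * x' + b * Y) ^ 2 := by
    rw [huz]
    linear_combination 16 * h' - s * (Y : ℤ) ^ 2 * hbc
  have h1 : jacobiSym (s : ℤ) u = 1 := by
    refine jac_div (by omega) ht hu2 huv (fun q hq hqu hqs => ?_) fun q hq hqu hqv => ?_
    · exact eq_two_of_dvd hq (dvd_sub hqu (hqs.mul_right (Y : ℤ))) (Or.inl (by rw [huz]; ring))
    · exact eq_two_of_dvd hq (dvd_sub hqu hqv) (Or.inr (by rw [huz]; ring))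
  have h2 : jacobiSym (s : ℤ) u = -1 := by
    rw [jacobiSym.quadratic_reciprocity_one_mod_four (by omega) (Nat.odd_iff.2 hu2),
      jacobiSym.mod_left' (a₁ := (u : ℤ)) (a₂ := 2)
        ((Int.emod_eq_emod_iff_emod_sub_eq_zero).2 (Int.emod_eq_zero_of_dvd
          ⟨Y, by rw [huz]; ring⟩)), jacobiSym.at_two (Nat.odd_iff.2 (by omega)),
      ZMod.χ₈_nat_eq_if_mod_eight]
    have h3 : ¬ s % 2 = 0 := by omega
    have h4 : ¬ (s % 8 = 1 ∨ s % 8 = 7) := by omega
    rw [if_neg h3, if_neg h4]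
  rw [h1] at h2
  norm_num at h2

theorem odd_sq {z : ℤ} (hz : z % 2 = 1) : ∃ k, z ^ 2 = 8 * k + 1 := by
  obtain ⟨c, hc⟩ : ∃ c, z = 2 * c + 1 := ⟨z / 2, by omega⟩
  obtain ⟨d, hd⟩ := odd_succ c
  exact ⟨d, by rw [hc]; linear_combination 4 * hd⟩

theorem odd_mul {x y : ℤ} (h : (x * y) % 2 = 1) : x % 2 = 1 ∧ y % 2 = 1 := by
  rcases Int.emod_two_eq_zero_or_one x with hx | hx <;>
    rcases Int.emod_two_eq_zero_or_one y with hy | hy <;>
    simp [Int.mul_emod, hx, hy] at h ⊢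

/-- **The general obstruction**: the numbers `s (a² x² + b x y + c y²)`, `4 a² c = b² + 3 s e²` -/
theorem no_valueG {s a : ℕ} (hs2 : s % 2 = 1) (ht : ∃ t : ℤ, (s : ℤ) ∣ t ^ 2 + 3) {b c e : ℤ}
    (ha0 : a ≠ 0) (hap : ∀ p : ℕ, p.Prime → p ∣ a → p % 3 = 2) (hae : IsCoprime (a : ℤ) e)
    (hbc : 4 * (a : ℤ) ^ 2 * c = b ^ 2 + 3 * s * e ^ 2)
    (hJ : (s % 4 = 1 ∧ jacobiSym (a : ℤ) s = -1) ∨
      (s % 4 = 3 ∧ 4 ∣ e ∧ jacobiSym (s : ℤ) a = -1)) (x y n : ℤ) :
    s * ((a : ℤ) ^ 2 * x ^ 2 + b * x * y + c * y ^ 2) ≠ n ^ 2 + n + 1 := by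
  intro h
  obtain ⟨t, ht⟩ := ht
  -- the sign
  obtain ⟨x', y', hey, h'⟩ : ∃ x' y' : ℤ, 0 ≤ e * y' ∧
      s * ((a : ℤ) ^ 2 * x' ^ 2 + b * x' * y' + c * y' ^ 2) = n ^ 2 + n + 1 := by
    rcases le_total 0 (e * y) with hy | hy
    · exact ⟨x, y, hy, h⟩
    · refine ⟨-x, -y, by linarith, ?_⟩
      rw [← h]
      ring
  obtain ⟨E, hE⟩ : ∃ E : ℕ, (E : ℤ) = e * y' := ⟨(e * y').toNat, Int.toNat_of_nonneg hey⟩
  set u : ℕ := s * E + a with hu
  have huz : (u : ℤ) = s * E + a := by rw [hu]; push_cast; ring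
  have huv : 3 * ((u : ℤ) * (s * E - a)) =
      (a * (2 * n + 1)) ^ 2 - s * (2 * (a : ℤ) ^ 2 * x' + b * y') ^ 2 := by
    rw [huz, hE]
    linear_combination 4 * (a : ℤ) ^ 2 * h' - s * y' ^ 2 * hbc
  -- a common prime of the two factors
  have hcom : ∀ q : ℕ, q.Prime → q ∣ a → (q : ℤ) ∣ E → False := by
    intro q hq hqa hqE
    have hpp := Nat.prime_iff_prime_int.1 hq
    have hqa' : (q : ℤ) ∣ a := Int.natCast_dvd_natCast.2 hqa
    have hqy : (q : ℤ) ∣ y' := by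
      rw [hE] at hqE
      rcases hpp.dvd_or_dvd hqE with h1 | h1
      · exact absurd (hae.isUnit_of_dvd' hqa' h1) hpp.not_isUnit
      · exact h1
    have h1 : (q : ℤ) ∣ nm n 1 := by
      have e1 : nm n 1 = s * (a * (a * x' ^ 2) + y' * (b * x' + c * y')) := by
        unfold nm
        linear_combination -h'
      rw [e1]
      exact (dvd_add (hqa'.mul_right _) (hqy.mul_right _)).mul_left _
    exact hpp.not_isUnit (isUnit_of_dvd_one (inert hq (hap q hq hqa) h1).2)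
  have hsa : ∀ q : ℕ, q.Prime → (q : ℤ) ∣ s → (q : ℤ) ∣ a → False := by
    intro q hq hqs hqa
    have h1 := hap q hq (Int.natCast_dvd_natCast.1 hqa)
    rcases prime_mod hs2 ht hq (Int.natCast_dvd_natCast.1 hqs) with h2 | h2
    · rw [h2] at h1
      norm_num at h1
    · omega
  have hqq : ∀ q : ℕ, q.Prime → (q : ℤ) ∣ u → (q : ℤ) ∣ s * E - a → q = 2 := by
    intro q hq hqu hqv
    by_contra hq2
    have hpp := Nat.prime_iff_prime_int.1 hq
    have h2a : (q : ℤ) ∣ 2 * a := by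
      have := dvd_sub hqu hqv
      have e1 : (u : ℤ) - (s * E - a) = 2 * a := by rw [huz]; ring
      rwa [e1] at this
    have h2 : ¬ (q : ℤ) ∣ 2 := fun h => hq2
      ((Nat.prime_dvd_prime_iff_eq hq Nat.prime_two).1 (by exact_mod_cast h))
    have hqa := (hpp.dvd_or_dvd h2a).resolve_left h2
    have hqE : (q : ℤ) ∣ s * E := by
      have := dvd_sub hqu hqa
      have e1 : (u : ℤ) - a = s * E := by rw [huz]; ring
      rwa [e1] at this
    rcases hpp.dvd_or_dvd hqE with h3 | h3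
    · exact hsa q hq h3 hqa
    · exact hcom q hq (Int.natCast_dvd_natCast.1 hqa) h3
  have hu0 : u ≠ 0 := by omega
  obtain ⟨i, u1, hu1, hui⟩ := Nat.exists_eq_two_pow_mul_odd hu0
  have hu1' : u1 % 2 = 1 := Nat.odd_iff.1 hu1
  have huiz : (u : ℤ) = 2 ^ i * u1 := by rw [hui]; push_cast; ring
  have h1 : jacobiSym (s : ℤ) u1 = 1 := by
    refine jac_div hs2 ht hu1' (v := 2 ^ i * (s * E - a)) (w := a * (2 * n + 1))
      (z := 2 * (a : ℤ) ^ 2 * x' + b * y') (by rw [← huv, huiz]; ring)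
      (fun q hq hqu hqs => ?_) fun q hq hqu hqv => ?_
    · exfalso
      have hqu' : (q : ℤ) ∣ u := by rw [huiz]; exact hqu.mul_left _
      refine hsa q hq hqs ?_
      have := dvd_sub hqu' (hqs.mul_right (E : ℤ))
      have e1 : (u : ℤ) - s * E = a := by rw [huz]; ring
      rwa [e1] at this
    · have hpp := Nat.prime_iff_prime_int.1 hq
      rcases hpp.dvd_or_dvd hqv with h2 | h2
      · exact (Nat.prime_dvd_prime_iff_eq hq Nat.prime_two).1
          (by exact_mod_cast hpp.dvd_of_dvd_pow h2)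
      · exact hqq q hq (by rw [huiz]; exact hqu.mul_left _) h2
  rcases hJ with ⟨hs4, hJ⟩ | ⟨hs4, he4, hJ⟩
  · -- the case `s ≡ 1 mod 4`
    have h2 : jacobiSym (u : ℤ) s = -1 := by
      rw [← hJ]
      exact jacobiSym.mod_left' ((Int.emod_eq_emod_iff_emod_sub_eq_zero).2
        (Int.emod_eq_zero_of_dvd ⟨E, by rw [huz]; ring⟩))
    have h3 : jacobiSym (u1 : ℤ) s = 1 := by
      rw [← h1]
      exact (jacobiSym.quadratic_reciprocity_one_mod_four hs4 hu1).symm
    rw [huiz, jacobiSym.mul_left, jacobiSym.pow_left, h3, mul_one] at h2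
    rcases Nat.eq_zero_or_pos i with hi | hi
    · rw [hi, pow_zero] at h2
      norm_num at h2
    · -- `u` is even
      have hueven : u % 2 = 0 := by
        obtain ⟨i', rfl⟩ : ∃ i', i = i' + 1 := ⟨i - 1, by omega⟩
        have e1 : u = 2 * (2 ^ i' * u1) := by rw [hui]; ring
        omega
      have haodd : a % 2 = 1 := by
        by_contra hcon
        refine hcom 2 Nat.prime_two (by omega) ?_
        have h4 : (s * E) % 2 = 0 := by omega
        have h5 : E % 2 = 0 := by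
          rcases Nat.mod_two_eq_zero_or_one E with h6 | h6
          · exact h6
          · rw [Nat.mul_mod, hs2, h6] at h4
            norm_num at h4
        omega
      have hsE : (s * E) % 2 = 1 := by omega
      have hEz : ((s : ℤ) * E) % 2 = 1 := by
        have : ((s * E : ℕ) : ℤ) % 2 = 1 := by omega
        rwa [Nat.cast_mul] at this
      have hEodd := (odd_mul hEz).2
      rw [hE] at hEodd
      obtain ⟨heo, hyo⟩ := odd_mul hEodd
      have hbo : b % 2 = 1 := by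
        rcases Int.emod_two_eq_zero_or_one b with hb | hb
        · exfalso
          obtain ⟨b', hb'⟩ : ∃ b', b = 2 * b' := ⟨b / 2, by omega⟩
          obtain ⟨k, hk⟩ := odd_sq heo
          obtain ⟨s', hs'⟩ : ∃ s' : ℤ, (s : ℤ) = 2 * s' + 1 := ⟨s / 2, by omega⟩
          have : 2 * (2 * (a : ℤ) ^ 2 * c - 2 * b' ^ 2 - 12 * k * s - 3 * s' - 1) = 1 := by
            rw [hk, hb'] at hbc
            linear_combination hbc + 3 * hs'
          omega
        · exact hb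
      have hUo : (2 * (a : ℤ) ^ 2 * x' + b * y') % 2 = 1 := by
        have : (b * y') % 2 = 1 := by rw [Int.mul_emod, hbo, hyo]; norm_num
        have e1 : 2 * (a : ℤ) ^ 2 * x' + b * y' = 2 * ((a : ℤ) ^ 2 * x') + b * y' := by ring
        omega
      have hwo : ((a : ℤ) * (2 * n + 1)) % 2 = 1 := by
        rw [Int.mul_emod]
        have h5 : (a : ℤ) % 2 = 1 := by omega
        have h6 : (2 * n + 1) % 2 = 1 := by omega
        rw [h5, h6]
        norm_num
      obtain ⟨k1, hk1⟩ := odd_sq hwo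
      obtain ⟨k2, hk2⟩ := odd_sq hUo
      obtain ⟨k3, hk3⟩ := odd_sq hEz
      obtain ⟨k4, hk4⟩ := odd_sq (z := (a : ℤ)) (by omega)
      have hs8 : s % 8 = 1 := by
        have e1 : (s : ℤ) = 8 * (k1 - s * k2 - 3 * k3 + 3 * k4) + 1 := by
          rw [hk1, hk2, huz] at huv
          linear_combination huv - 3 * hk3 + 3 * hk4
        generalize (s : ℤ) * k2 = z at e1
        omega
      have hJ2 : jacobiSym 2 s = 1 := by
        rw [jacobiSym.at_two (Nat.odd_iff.2 hs2), ZMod.χ₈_nat_eq_if_mod_eight]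
        rw [if_neg (by omega), if_pos (by omega)]
      rw [hJ2, one_pow] at h2
      norm_num at h2
  · -- the case `s ≡ 3 mod 4`
    have haodd : a % 2 = 1 := by
      by_contra hcon
      have h2 : (2 : ℤ) ∣ a := by omega
      have h3 : (2 : ℤ) ∣ e := dvd_trans (by norm_num) he4
      exact Int.prime_two.not_isUnit (hae.isUnit_of_dvd' h2 h3)
    obtain ⟨e', he'⟩ := he4
    have hE4 : ∃ E' : ℕ, E = 4 * E' := by
      have h2 : (4 : ℤ) ∣ E := ⟨e' * y', by rw [hE, he']; ring⟩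
      exact Int.natCast_dvd_natCast.1 (by exact_mod_cast h2)
    obtain ⟨E', hE'⟩ := hE4
    have huE : u = a + 4 * s * E' := by rw [hu, hE']; ring
    have hu2 : u % 2 = 1 := by
      rw [huE]
      have : a + 4 * s * E' = a + 2 * (2 * (s * E')) := by ring
      omega
    have hi : i = 0 := by
      by_contra hi
      obtain ⟨i', rfl⟩ : ∃ i', i = i' + 1 := ⟨i - 1, by omega⟩
      have e1 : u = 2 * (2 ^ i' * u1) := by rw [hui]; ring
      omega
    rw [hi, pow_zero, one_mul] at hui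
    have e1 : jacobiSym (s : ℤ) u = jacobiSym (s : ℤ) a := by
      rw [jacobiSym.mod_right (s : ℤ) (Nat.odd_iff.2 hu2),
        jacobiSym.mod_right (s : ℤ) (b := a) (Nat.odd_iff.2 haodd), huE, Int.natAbs_natCast,
        Nat.add_mul_mod_self_left]
    rw [← hui, e1, hJ] at h1
    norm_num at h1

/-- the local conditions, second family -/
theorem admB {s : ℕ} (hs : s % 12 = 1) {t : ℤ} (ht : (s : ℤ) ∣ t ^ 2 + 3) {k m : ℤ}
    (hkm : IsCoprime k m) {p : ℕ} (hp : p.Prime) :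
    AdmissibleAt p (2 * (s ^ 2 * k ^ 2)) ∨ AdmissibleAt p (2 * (3 * s * m ^ 2)) := by
  have hpp := Nat.prime_iff_prime_int.1 hp
  have hps : p ≠ 2 → p % 3 = 2 → ¬ (p : ℤ) ∣ s := by
    intro _ h3 h
    have := prime_mod (by omega) ht hp (Int.natCast_dvd_natCast.1 h)
    rcases this with rfl | h
    · norm_num at h3
    · omega
  obtain ⟨e, he⟩ : ∃ e : ℤ, (s : ℤ) = 12 * e + 1 := ⟨s / 12, by omega⟩
  by_cases hpk : (p : ℤ) ∣ k
  · right
    have hpm : ¬ (p : ℤ) ∣ m := fun h => hpp.not_isUnit (hkm.isUnit_of_dvd' hpk h)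
    refine ⟨?_, ?_, ?_⟩
    · rintro rfl h4
      have hm : m % 2 = 1 := by
        have : ¬ (2 : ℤ) ∣ m := hpm
        omega
      obtain ⟨c, hc⟩ : ∃ c, m = 2 * c + 1 := ⟨m / 2, by omega⟩
      have : 2 * (3 * (s : ℤ) * m ^ 2) = 12 * (6 * e * m ^ 2 + 2 * c ^ 2 + 2 * c) + 6 := by
        rw [he, hc]
        ring
      omega
    · rintro rfl
      right
      have hm : m % 3 = 1 ∨ m % 3 = 2 := by
        have : ¬ (3 : ℤ) ∣ m := hpm
        omega
      have hm2 : ∃ c, m ^ 2 = 3 * c + 1 := by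
        rcases hm with h | h
        · obtain ⟨c, hc⟩ : ∃ c, m = 3 * c + 1 := ⟨m / 3, by omega⟩
          exact ⟨3 * c ^ 2 + 2 * c, by rw [hc]; ring⟩
        · obtain ⟨c, hc⟩ : ∃ c, m = 3 * c + 2 := ⟨m / 3, by omega⟩
          exact ⟨3 * c ^ 2 + 4 * c + 1, by rw [hc]; ring⟩
      obtain ⟨c, hc⟩ := hm2
      have : 2 * (3 * (s : ℤ) * m ^ 2) = 18 * (4 * e * (3 * c + 1) + c) + 6 := by
        rw [he, hc]
        ring
      omega
    · intro hp2 hp3 h
      rcases hpp.dvd_or_dvd h with h | h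
      · have h9 : p ∣ 2 := by exact_mod_cast h
        exact hp2 ((Nat.prime_dvd_prime_iff_eq hp Nat.prime_two).1 h9)
      · rcases hpp.dvd_or_dvd h with h | h
        · rcases hpp.dvd_or_dvd h with h | h
          · have h9 : p ∣ 3 := by exact_mod_cast h
            rw [(Nat.prime_dvd_prime_iff_eq hp Nat.prime_three).1 h9] at hp3
            norm_num at hp3
          · exact hps hp2 hp3 h
        · exact hpm (hpp.dvd_of_dvd_pow h)
  · left
    refine ⟨?_, ?_, ?_⟩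
    · rintro rfl h4
      have h2 : (2 : ℤ) ∣ (s * k) ^ 2 := by
        have e1 : 2 * ((s : ℤ) ^ 2 * k ^ 2) = 2 * (s * k) ^ 2 := by ring
        omega
      rcases Int.prime_two.dvd_or_dvd (Int.prime_two.dvd_of_dvd_pow h2) with h | h
      · omega
      · exact hpk h
    · rintro rfl
      left
      intro h
      have h2 : (3 : ℤ) ∣ (s * k) ^ 2 := by
        have e1 : 2 * ((s : ℤ) ^ 2 * k ^ 2) = 2 * (s * k) ^ 2 := by ring
        omega
      rcases Int.prime_three.dvd_or_dvd (Int.prime_three.dvd_of_dvd_pow h2) with h | h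
      · omega
      · exact hpk h
    · intro hp2 hp3 h
      rcases hpp.dvd_or_dvd h with h | h
      · have h9 : p ∣ 2 := by exact_mod_cast h
        exact hp2 ((Nat.prime_dvd_prime_iff_eq hp Nat.prime_two).1 h9)
      · rcases hpp.dvd_or_dvd h with h | h
        · exact hps hp2 hp3 (hpp.dvd_of_dvd_pow h)
        · exact hpk (hpp.dvd_of_dvd_pow h)

/-- the local conditions, first family -/
theorem admA {s : ℕ} (hs : s % 4 = 3) {t : ℤ} (ht : (s : ℤ) ∣ t ^ 2 + 3) {k m : ℤ}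
    (hkm : IsCoprime k m) (hm : m % 2 = 1) (h3 : 3 ∣ s → ¬ 3 ∣ k) {p : ℕ} (hp : p.Prime) :
    AdmissibleAt p (2 * (4 * s * k ^ 2)) ∨ AdmissibleAt p (2 * (3 * s ^ 2 * m ^ 2)) := by
  have hpp := Nat.prime_iff_prime_int.1 hp
  have hps : p ≠ 2 → p % 3 = 2 → ¬ (p : ℤ) ∣ s := by
    intro _ h3 h
    have := prime_mod (by omega) ht hp (Int.natCast_dvd_natCast.1 h)
    rcases this with rfl | h
    · norm_num at h3
    · omega
  by_cases hp2 : p = 2
  · right
    refine ⟨fun _ h4 => ?_, fun h => ?_, fun h => absurd hp2 h⟩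
    · obtain ⟨c, hc⟩ : ∃ c, m = 2 * c + 1 := ⟨m / 2, by omega⟩
      obtain ⟨e, he⟩ : ∃ e : ℤ, (s : ℤ) = 2 * e + 1 := ⟨s / 2, by omega⟩
      have : 2 * (3 * (s : ℤ) ^ 2 * m ^ 2) = 4 * (6 * (e * (2 * c + 1) + c) ^ 2 +
          6 * (e * (2 * c + 1) + c) + 1) + 2 := by
        rw [he, hc]
        ring
      omega
    · omega
  by_cases hp3 : p = 3
  · subst hp3
    by_cases hs3 : 3 ∣ s
    · left
      refine ⟨fun h => absurd h hp2, fun _ => Or.inr ?_, fun _ h => absurd h (by norm_num)⟩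
      have hk3 := h3 hs3
      obtain ⟨s', rfl⟩ := hs3
      have hs' : s' % 3 = 1 := by
        have h9 : ¬ 3 ∣ s' := by
          rintro ⟨s'', rfl⟩
          have h1 : (9 : ℤ) ∣ t ^ 2 + 3 := by
            refine dvd_trans ⟨s'', ?_⟩ ht
            push_cast
            ring
          have h2 : (3 : ℤ) ∣ t ^ 2 := by omega
          obtain ⟨t', rfl⟩ := Int.prime_three.dvd_of_dvd_pow h2
          have e : (3 * t') ^ 2 + 3 = 9 * t' ^ 2 + 3 := by ring
          rw [e] at h1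
          omega
        refine mod_three (t := t) (by omega) (dvd_trans ⟨3, ?_⟩ ht) h9
        push_cast
        ring
      have hk : k % 3 = 1 ∨ k % 3 = 2 := by omega
      have hk2 : ∃ c, k ^ 2 = 3 * c + 1 := by
        rcases hk with h | h
        · obtain ⟨c, hc⟩ : ∃ c, k = 3 * c + 1 := ⟨k / 3, by omega⟩
          exact ⟨3 * c ^ 2 + 2 * c, by rw [hc]; ring⟩
        · obtain ⟨c, hc⟩ : ∃ c, k = 3 * c + 2 := ⟨k / 3, by omega⟩
          exact ⟨3 * c ^ 2 + 4 * c + 1, by rw [hc]; ring⟩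
      obtain ⟨c, hc⟩ := hk2
      obtain ⟨e, he⟩ : ∃ e : ℤ, (s' : ℤ) = 3 * e + 1 := ⟨s' / 3, by omega⟩
      have : 2 * (4 * ((3 * s' : ℕ) : ℤ) * k ^ 2) = 18 * (4 * (3 * e * c + e + c) + 1) + 6 := by
        push_cast
        rw [he, hc]
        ring
      omega
    · have hs1 := mod_three (by omega) ht hs3
      by_cases hk3 : (3 : ℤ) ∣ k
      · right
        refine ⟨fun h => absurd h hp2, fun _ => Or.inr ?_, fun _ h => absurd h (by norm_num)⟩
        have hm3 : ¬ (3 : ℤ) ∣ m := fun h => Int.prime_three.not_isUnit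
          (hkm.isUnit_of_dvd' hk3 h)
        have hm' : ∃ c, (s * m) ^ 2 = 3 * c + 1 := by
          obtain ⟨e, he⟩ : ∃ e : ℤ, (s : ℤ) = 3 * e + 1 := ⟨s / 3, by omega⟩
          have : m % 3 = 1 ∨ m % 3 = 2 := by omega
          rcases this with h | h
          · obtain ⟨c, hc⟩ : ∃ c, m = 3 * c + 1 := ⟨m / 3, by omega⟩
            refine ⟨3 * (3 * e * c + e + c) ^ 2 + 2 * (3 * e * c + e + c), by rw [he, hc]; ring⟩
          · obtain ⟨c, hc⟩ : ∃ c, m = 3 * c + 2 := ⟨m / 3, by omega⟩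
            refine ⟨3 * (3 * e * c + 2 * e + c) ^ 2 + 4 * (3 * e * c + 2 * e + c) + 1,
              by rw [he, hc]; ring⟩
        obtain ⟨c, hc⟩ := hm'
        have : 2 * (3 * (s : ℤ) ^ 2 * m ^ 2) = 18 * c + 6 := by
          linear_combination 6 * hc
        omega
      · left
        refine ⟨fun h => absurd h hp2, fun _ => Or.inl fun h => ?_,
          fun _ h => absurd h (by norm_num)⟩
        have e : 2 * (4 * (s : ℤ) * k ^ 2) = 8 * (s * k ^ 2) := by ring
        have h2 : (3 : ℤ) ∣ s * k ^ 2 := by omega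
        rcases Int.prime_three.dvd_or_dvd h2 with h | h
        · omega
        · exact hk3 (Int.prime_three.dvd_of_dvd_pow h)
  have h2' : ¬ (p : ℤ) ∣ 2 := fun h => hp2
    ((Nat.prime_dvd_prime_iff_eq hp Nat.prime_two).1 (by exact_mod_cast h))
  have h3' : ¬ (p : ℤ) ∣ 3 := fun h => hp3
    ((Nat.prime_dvd_prime_iff_eq hp Nat.prime_three).1 (by exact_mod_cast h))
  by_cases hpk : (p : ℤ) ∣ k
  · right
    have hpm : ¬ (p : ℤ) ∣ m := fun h => hpp.not_isUnit (hkm.isUnit_of_dvd' hpk h)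
    refine ⟨fun h => absurd h hp2, fun h => absurd h hp3, fun _ hp3' h => ?_⟩
    rcases hpp.dvd_or_dvd h with h | h
    · exact h2' h
    · rcases hpp.dvd_or_dvd h with h | h
      · rcases hpp.dvd_or_dvd h with h | h
        · exact h3' h
        · exact hps hp2 hp3' (hpp.dvd_of_dvd_pow h)
      · exact hpm (hpp.dvd_of_dvd_pow h)
  · left
    refine ⟨fun h => absurd h hp2, fun h => absurd h hp3, fun _ hp3' h => ?_⟩
    rcases hpp.dvd_or_dvd h with h | h
    · exact h2' h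
    · rcases hpp.dvd_or_dvd h with h | h
      · rcases hpp.dvd_or_dvd h with h | h
        · have : (p : ℤ) ∣ 2 ^ 2 := by norm_num; exact h
          exact h2' (hpp.dvd_of_dvd_pow this)
        · exact hps hp2 hp3' h
      · exact hpk (hpp.dvd_of_dvd_pow h)

theorem adm_two_mod {s g : ℤ} {p : ℕ} (hp : p.Prime) (h3 : p % 3 = 2) (hs : ¬ (p : ℤ) ∣ s)
    (hg : ¬ (p : ℤ) ∣ g) : AdmissibleAt p (2 * (s * g)) := by
  have hpp := Nat.prime_iff_prime_int.1 hp
  have hsg : ¬ (p : ℤ) ∣ s * g := fun h => (hpp.dvd_or_dvd h).elim hs hg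
  refine ⟨?_, fun h => by omega, fun h2 _ h => ?_⟩
  · rintro rfl h4
    apply hsg
    push_cast
    omega
  · rcases hpp.dvd_or_dvd h with h | h
    · exact h2 ((Nat.prime_dvd_prime_iff_eq hp Nat.prime_two).1 (by exact_mod_cast h))
    · exact hsg h

/-- the local conditions, general form -/
theorem admG {s a : ℕ} (hs2 : s % 2 = 1) {t : ℤ} (ht : (s : ℤ) ∣ t ^ 2 + 3) {b c e : ℤ}
    (hap : ∀ p : ℕ, p.Prime → p ∣ a → p % 3 = 2) (hae : IsCoprime (a : ℤ) e)
    (hbc : 4 * (a : ℤ) ^ 2 * c = b ^ 2 + 3 * s * e ^ 2) {p : ℕ} (hp : p.Prime) :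
    ∃ x y : ℤ, AdmissibleAt p (2 * (s * ((a : ℤ) ^ 2 * x ^ 2 + b * x * y + c * y ^ 2))) := by
  have hpp := Nat.prime_iff_prime_int.1 hp
  have hps : p % 3 = 2 → ¬ (p : ℤ) ∣ s := by
    intro h3 h
    rcases prime_mod hs2 ht hp (Int.natCast_dvd_natCast.1 h) with h4 | h4
    · rw [h4] at h3
      norm_num at h3
    · omega
  by_cases h3 : p = 3
  · subst h3
    have ha3 : ¬ 3 ∣ a := fun h => by
      have := hap 3 hp h
      norm_num at this
    have hm' : ∃ k, (a : ℤ) ^ 2 = 3 * k + 1 := by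
      have : (a : ℤ) % 3 = 1 ∨ (a : ℤ) % 3 = 2 := by omega
      rcases this with h | h
      · obtain ⟨k, hk⟩ : ∃ k : ℤ, (a : ℤ) = 3 * k + 1 := ⟨a / 3, by omega⟩
        exact ⟨3 * k ^ 2 + 2 * k, by rw [hk]; ring⟩
      · obtain ⟨k, hk⟩ : ∃ k : ℤ, (a : ℤ) = 3 * k + 2 := ⟨a / 3, by omega⟩
        exact ⟨3 * k ^ 2 + 4 * k + 1, by rw [hk]; ring⟩
    obtain ⟨k, hk⟩ := hm'
    refine ⟨1, 0, fun h => absurd h (by norm_num), fun _ => ?_, fun _ h => absurd h (by norm_num)⟩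
    by_cases hs3 : 3 ∣ s
    · right
      obtain ⟨s', rfl⟩ := hs3
      have hs' : s' % 3 = 1 := by
        have h9 : ¬ 3 ∣ s' := by
          rintro ⟨s'', rfl⟩
          have h1 : (9 : ℤ) ∣ t ^ 2 + 3 := by
            refine dvd_trans ⟨s'', ?_⟩ ht
            push_cast
            ring
          have h2 : (3 : ℤ) ∣ t ^ 2 := by omega
          obtain ⟨t', rfl⟩ := Int.prime_three.dvd_of_dvd_pow h2
          have e : (3 * t') ^ 2 + 3 = 9 * t' ^ 2 + 3 := by ring
          rw [e] at h1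
          omega
        refine mod_three (t := t) (by omega) (dvd_trans ⟨3, ?_⟩ ht) h9
        push_cast
        ring
      obtain ⟨j, hj⟩ : ∃ j : ℤ, (s' : ℤ) = 3 * j + 1 := ⟨s' / 3, by omega⟩
      have : 2 * (((3 * s' : ℕ) : ℤ) * ((a : ℤ) ^ 2 * 1 ^ 2 + b * 1 * 0 + c * 0 ^ 2)) =
          18 * (3 * j * k + j + k) + 6 := by
        push_cast
        rw [hk, hj]
        ring
      omega
    · left
      have hs1 := mod_three hs2 ht hs3
      obtain ⟨j, hj⟩ : ∃ j : ℤ, (s : ℤ) = 3 * j + 1 := ⟨s / 3, by omega⟩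
      have : 2 * ((s : ℤ) * ((a : ℤ) ^ 2 * 1 ^ 2 + b * 1 * 0 + c * 0 ^ 2)) =
          3 * (2 * (3 * j * k + j + k)) + 2 := by
        rw [hk, hj]
        ring
      omega
  by_cases h2 : p % 3 = 2
  · by_cases hpa : p ∣ a
    · have hpa' : (p : ℤ) ∣ a := Int.natCast_dvd_natCast.2 hpa
      have hpb : ¬ (p : ℤ) ∣ b := by
        intro hb
        have h5 : (p : ℤ) ∣ 3 * s * e ^ 2 := by
          have e1 : 3 * (s : ℤ) * e ^ 2 = a * (4 * a * c) - b * b := by linear_combination -hbc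
          rw [e1]
          exact dvd_sub (hpa'.mul_right _) (hb.mul_right _)
        rcases hpp.dvd_or_dvd h5 with h6 | h6
        · rcases hpp.dvd_or_dvd h6 with h7 | h7
          · exact h3 ((Nat.prime_dvd_prime_iff_eq hp Nat.prime_three).1 (by exact_mod_cast h7))
          · exact hps h2 h7
        · exact hpp.not_isUnit (hae.isUnit_of_dvd' hpa' (hpp.dvd_of_dvd_pow h6))
      by_cases hpc : (p : ℤ) ∣ c
      · refine ⟨1, 1, adm_two_mod hp h2 (hps h2) fun h => hpb ?_⟩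
        have e1 : b = ((a : ℤ) ^ 2 * 1 ^ 2 + b * 1 * 1 + c * 1 ^ 2) - a * a - c := by ring
        rw [e1]
        exact dvd_sub (dvd_sub h (hpa'.mul_right _)) hpc
      · refine ⟨0, 1, adm_two_mod hp h2 (hps h2) fun h => hpc ?_⟩
        have e1 : c = (a : ℤ) ^ 2 * 0 ^ 2 + b * 0 * 1 + c * 1 ^ 2 := by ring
        rw [e1]
        exact h
    · refine ⟨1, 0, adm_two_mod hp h2 (hps h2) fun h => hpa ?_⟩
      have e1 : (a : ℤ) ^ 2 * 1 ^ 2 + b * 1 * 0 + c * 0 ^ 2 = (a : ℤ) ^ 2 := by ring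
      rw [e1] at h
      exact Int.natCast_dvd_natCast.1 (hpp.dvd_of_dvd_pow h)
  · refine ⟨1, 0, fun h => absurd h fun h4 => h2 (by rw [h4]), fun h => absurd h h3,
      fun _ h => absurd h h2⟩

end Pool.Agent.K9h95.RT
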